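import Pool.Agent.Helper97_WHC.Stmt
import Pool.Agent.Helper24_WHT.HEC

set_option autoImplicit false

/-!
# Squad WHC, module BND: size and support of the matrices
-/

open scoped BigOperators

namespace Pool.Agent.WHC.H90

open Pool.Agent.DEN Pool.Agent.TMP Pool.Agent.WHT

section
variable {r : ℕ} {C : Matrix (Fin r) (Fin r) ℤ} {K : Type} [Field K]

/-- All the root heights of `l` are at most `ρ` if `v t^l` is bounded by `ρ`. -/
theorem ip_le (hC : SimplyLaced C) {v : grp C K} (hv : v ∈ Ug C K) {l : Fin r → ℤ} {ρ : ℕ}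
    (h : bnd ρ (v * tg hC K l)) (β : Rt C) : ip C β.1 l ≤ (ρ : ℤ) := by
  have h1 := (h (EE β) (H39.EE_Cd _)).2 β
  have h2 : (v * tg hC K l).1 (EE β) = v.1 ((tg hC K l).1 (EE β)) := rfl
  rw [h2, WHT.H24.tg_EE, map_smul] at h1
  have h3 : tt K ^ (ip C β.1 l) * (v.1 (EE β)).2 β ∈ Bd K ρ := h1
  rw [WHT.H24.Ug_EE hC hv, mul_one] at h3
  exact WHT.H24.tt_le h3

theorem abs_ip_le (hC : SimplyLaced C) {v : grp C K} (hv : v ∈ Ug C K) {l : Fin r → ℤ} {ρ : ℕ}
    (h : bnd ρ (v * tg hC K l)) (β : Rt C) : |ip C β.1 l| ≤ (ρ : ℤ) := by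
  rw [abs_le]
  have h1 := ip_le hC hv h β
  have h2 := ip_le hC hv h β.neg
  rw [Rt.neg_val, ip_neg_left] at h2
  constructor
  · omega
  · exact h1

theorem kab_ker {k : XX C K → XX C K → ℂ} (hk : IsKer k) : IsKer (kab k) := by
  refine ⟨fun g x y => ?_, fun x => ?_⟩
  · show ((‖k (g • x) (g • y)‖ : ℝ) : ℂ) = ((‖k x y‖ : ℝ) : ℂ)
    rw [hk.inv]
  · refine (hk.fin x).subset ?_
    intro y hy hy0
    apply hy
    show ((‖k x y‖ : ℝ) : ℂ) = 0
    rw [hy0]
    simp

theorem kab_kst (k : XX C K → XX C K → ℂ) : kab (kst k) = kst (kab k) := by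
  funext x y
  show ((‖(starRingEnd ℂ) (k y x)‖ : ℝ) : ℂ) = (starRingEnd ℂ) ((‖k y x‖ : ℝ) : ℂ)
  rw [Complex.conj_ofReal]
  congr 1
  exact RCLike.norm_conj _

theorem wf_norm_le (hC : SimplyLaced C) {χ : grp C K → ℂ} (hχ : ∀ u ∈ Ug C K, ‖χ u‖ = 1)
    (m : Fin r → ℤ) (y : XX C K) : ‖wf hC χ m y‖ ≤ 1 := by
  unfold wf
  split_ifs with h
  · exact (hχ _ h.choose_spec.1).le
  · rw [norm_zero]
    exact zero_le_one

theorem wf_ne (hC : SimplyLaced C) {χ : grp C K → ℂ} {m : Fin r → ℤ} {y : XX C K}
    (h : wf hC χ m y ≠ 0) : y ∈ Hor hC K m := by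
  unfold wf at h
  by_contra hy
  apply h
  rw [dif_neg]
  exact hy

end

/-- BND -/
theorem bnd : BndStmt := by
  classical
  intro r C hC K _ _ χ hχ k hk
  have hkst : IsKer (kst k) := (hKer r C hC K).2.2.1 k hk
  have hkk : IsKer (kab (kst k)) := kab_ker hkst
  refine ⟨kab_ker hk, ?_, ?_⟩
  · intro m m'
    by_cases hG : GoodU hC χ m'
    swap
    · unfold bt
      rw [if_neg hG, norm_zero]
      exact norm_nonneg _
    · have hq : (0 : ℝ) < (Nat.card K : ℝ) := by
        exact_mod_cast Nat.card_pos
      -- the row of `kst k`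
      have hfin : (Function.support fun y => kst k (tp hC K m') y).Finite := hkst.fin _
      have e1 : hsum hC (kab (kst k)) (m - m') =
          ∑ᶠ y ∈ Hor hC K m, kab (kst k) (tp hC K m') y :=
        ((hSmu r C hC K).2.2.2.2.2.2 (kab (kst k)) hkk (tp hC K m') m' m
          ⟨1, one_mem _, (one_smul _ _).symm⟩).symm
      have e2 : ‖wa hC χ (kst k) m' m‖ ≤ ‖hsum hC (kab (kst k)) (m - m')‖ := by
        set S := hfin.toFinset with hS
        have a1 : wa hC χ (kst k) m' m =
            ∑ y ∈ S, kst k (tp hC K m') y * wf hC χ m y := by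
          unfold wa
          apply finsum_eq_sum_of_support_subset
          intro y hy
          rw [hS, Set.Finite.coe_toFinset]
          intro h0
          apply hy
          show kst k (tp hC K m') y * wf hC χ m y = 0
          have h0' : kst k (tp hC K m') y = 0 := h0
          rw [h0', zero_mul]
        have a2 : hsum hC (kab (kst k)) (m - m') =
            ((∑ y ∈ S, (if y ∈ Hor hC K m then ‖kst k (tp hC K m') y‖ else 0) : ℝ) : ℂ) := by
          rw [e1, finsum_mem_def, finsum_eq_sum_of_support_subset (s := S)]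
          · push_cast
            apply Finset.sum_congr rfl
            intro y _
            by_cases hy : y ∈ Hor hC K m
            · rw [Set.indicator_of_mem hy, if_pos hy]
              rfl
            · rw [Set.indicator_of_notMem hy, if_neg hy]
              simp
          · intro y hy
            rw [hS, Set.Finite.coe_toFinset]
            intro h0
            apply hy
            by_cases hy' : y ∈ Hor hC K m
            · rw [Set.indicator_of_mem hy']
              show ((‖kst k (tp hC K m') y‖ : ℝ) : ℂ) = 0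
              have h0' : kst k (tp hC K m') y = 0 := h0
              rw [h0', norm_zero, Complex.ofReal_zero]
            · rw [Set.indicator_of_notMem hy']
        have a3 : (0 : ℝ) ≤ ∑ y ∈ S, (if y ∈ Hor hC K m then ‖kst k (tp hC K m') y‖ else 0) := by
          apply Finset.sum_nonneg
          intro y _
          split_ifs
          · exact norm_nonneg _
          · exact le_rfl
        rw [a1, a2, Complex.norm_real, Real.norm_of_nonneg a3]
        refine (norm_sum_le _ _).trans (Finset.sum_le_sum fun y _ => ?_)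
        by_cases hy : y ∈ Hor hC K m
        · rw [if_pos hy, norm_mul]
          exact mul_le_of_le_one_right (norm_nonneg _) (wf_norm_le hC hχ m y)
        · rw [if_neg hy]
          have h0 : wf hC χ m y = 0 := by
            by_contra h
            exact hy (wf_ne hC h)
          rw [h0, mul_zero, norm_zero]
      have e3 : ‖sat hC (kab k) (m' - m)‖ = ‖sat hC (kab (kst k)) (m - m')‖ := by
        rw [kab_kst, (hFla r C hC K (kab k) (kab_ker hk)).1 (m - m'), neg_sub]
        exact (RCLike.norm_conj _).symm
      rw [e3]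
      unfold bt sat
      rw [if_pos hG, norm_mul, norm_mul, H43.hv_sub]
      refine mul_le_mul_of_nonneg_left ?_ (norm_nonneg _)
      have h4 : ‖(starRingEnd ℂ) (wa hC χ (kst k) m' m)‖ = ‖wa hC χ (kst k) m' m‖ :=
        RCLike.norm_conj _
      rw [h4]
      exact e2
  · intro ρ hρ
    constructor
    · intro l hl β
      have h1 : hsum hC k l ≠ 0 := fun h => hl (by unfold sat; rw [h, mul_zero])
      have h2 : ∃ y, ∃ hy : y ∈ Hor hC K l, k (oo C K) y ≠ 0 := by
        by_contra hcon
        push Not at hcon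
        apply h1
        unfold hsum
        exact finsum_mem_eq_zero_of_forall_eq_zero hcon
      obtain ⟨y, ⟨u, hu, hy⟩, hk0⟩ := h2
      have h3 : y = (u * tg hC K l) • oo C K := by rw [mul_smul, tp_smul, hy]
      rw [h3] at hk0
      exact abs_ip_le hC hu (hρ _ hk0).1 β
    · intro m m' hbt β
      have h1 : wa hC χ (kst k) m' m ≠ 0 := by
        intro h
        apply hbt
        unfold bt
        rw [h, map_zero, mul_zero, ite_self]
      have h2 : ∃ y, kst k (tp hC K m') y * wf hC χ m y ≠ 0 := by
        by_contra hcon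
        push Not at hcon
        apply h1
        unfold wa
        rw [finsum_congr hcon, finsum_zero]
      obtain ⟨y, hy⟩ := h2
      have hy1 : k y (tp hC K m') ≠ 0 := by
        intro h
        apply hy
        have : kst k (tp hC K m') y = 0 := by
          show (starRingEnd ℂ) (k y (tp hC K m')) = 0
          rw [h, map_zero]
        rw [this, zero_mul]
      obtain ⟨u, hu, hyu⟩ := wf_ne hC (right_ne_zero_of_mul hy)
      have h3 : k (oo C K) (((u * tg hC K m)⁻¹ * tg hC K m') • oo C K) ≠ 0 := by
        have h4 := hk.inv (u * tg hC K m)⁻¹ y (tp hC K m')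
        have h5 : (u * tg hC K m)⁻¹ • y = oo C K := by
          have h51 : y = (u * tg hC K m) • oo C K := by rw [mul_smul, tp_smul, hyu]
          rw [h51, inv_smul_smul]
        rw [h5] at h4
        rw [mul_smul, tp_smul, h4]
        exact hy1
      have h6 := (hρ _ h3).2
      have h7 : ((u * tg hC K m)⁻¹ * tg hC K m')⁻¹ =
          (tg hC K (-m') * u * (tg hC K (-m'))⁻¹) * tg hC K (m - m') := by
        rw [sub_eq_add_neg, add_comm m (-m'), tg_add, tg_neg]
        group
      rw [h7] at h6
      have h8 := abs_ip_le hC (TMP.H58.tg_Ug hC (-m') hu) h6 β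
      rw [← neg_sub, ip_neg_right, abs_neg]
      exact h8

end Pool.Agent.WHC.H90
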